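import Pool.Agent.H59.L.S8.H176.DT.Stm2

/-!
# The data of a key polynomial
-/

set_option autoImplicit false
set_option linter.unusedVariables false
set_option linter.unusedSectionVars false

universe u

namespace Pool.Agent.H290.DT2

open Pool.Agent.W418.LU2 Pool.Agent.H176.DT IsLocalRing Polynomial

section aux

variable {E F : Type u} [Field E] [Field F] [Algebra E F]

lemma deg_sum {ϕ : E[X]} (hϕ : 0 < ϕ.natDegree) {n : ℕ} {β : Fin n → E[X]}
    (hβ : ∀ i, (β i).degree < ϕ.degree) (c : Fin n → E) :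
    (∑ i, C (c i) * β i).degree < ϕ.degree := by
  have h0 : (0 : E[X]).degree < ϕ.degree := by
    rw [degree_zero]
    exact bot_lt_iff_ne_bot.2 (degree_ne_bot.2 (ne_zero_of_natDegree_gt hϕ))
  refine Finset.sum_induction _ (fun p : E[X] => p.degree < ϕ.degree)
    (fun a b ha hb => (degree_add_le a b).trans_lt (max_lt ha hb)) h0 ?_
  intro i _
  by_cases hc : c i = 0
  · rw [hc, C_0, zero_mul]
    exact h0
  · rw [degree_C_mul hc]
    exact hβ i

/-- the residue field has an orthogonal basis -/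
lemma orth_of (V : ValuationSubring F) (θ : F) (ϕ : E[X]) {n : ℕ} (β : Fin n → E[X])
    (hK : KP V θ ϕ β) {M : Type u} [Field M] [Algebra E M] (W : ValuationSubring M)
    (π : E[X] →ₐ[E] M) (hR : Rsd V θ ϕ W π) : Orth (E := E) W (fun i => π (β i)) := by
  have hsum : ∀ c : Fin n → E, π (∑ i, C (c i) * β i) = ∑ i, algebraMap E M (c i) * π (β i) := by
    intro c
    rw [map_sum]
    refine Finset.sum_congr rfl fun i _ => ?_
    rw [map_mul]
    congr 1
    exact π.commutes _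
  refine ⟨fun i h => ?_, fun z => ?_, fun c i => ?_⟩
  · have h1 := (hR.ker _).1 h
    exact hK.monic.not_dvd_of_degree_lt (hK.b0 i) (hK.bdeg i) h1
  · obtain ⟨f, hf, rfl⟩ := hR.sur z
    obtain ⟨c, rfl⟩ := hK.span f hf
    exact ⟨c, hsum c⟩
  · rw [← hsum c]
    have h1 : algebraMap E M (c i) * π (β i) = π (C (c i) * β i) := by
      rw [map_mul]
      congr 1
      exact (π.commutes _).symm
    rw [h1]
    refine (hR.val _ _ ?_ (deg_sum hK.deg hK.bdeg c)).2 (hK.orth c i)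
    by_cases hc : c i = 0
    · rw [hc, C_0, zero_mul, degree_zero]
      exact bot_lt_iff_ne_bot.2 (degree_ne_bot.2 hK.monic.ne_zero)
    · rw [degree_C_mul hc]
      exact hK.bdeg i

lemma mo_snoc {q : ℕ} (θ : F) (ϕ : E[X]) (tt : Fin q → E[X]) (m : Fin (q + 1) → ℤ) :
    mo (tf θ ϕ tt) m = mo (fun i => aeval θ (tt i)) (fun i => m i.castSucc) *
      aeval θ ϕ ^ m (Fin.last q) := by
  unfold mo tf
  rw [Fin.prod_univ_castSucc]
  simp only [Fin.snoc_castSucc, Fin.snoc_last]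

lemma tf_cast {q : ℕ} (θ : F) (ϕ : E[X]) (tt : Fin q → E[X]) (i : Fin q) :
    tf θ ϕ tt i.castSucc = aeval θ (tt i) := by
  unfold tf
  rw [Fin.snoc_castSucc]

lemma tf_last {q : ℕ} (θ : F) (ϕ : E[X]) (tt : Fin q → E[X]) :
    tf θ ϕ tt (Fin.last q) = aeval θ ϕ := by
  unfold tf
  rw [Fin.snoc_last]

/-- the values of the powers of the key polynomial -/
def HH (V : ValuationSubring F) {q : ℕ} (x : F) (t : Fin q → F) (hx : x ≠ 0)
    (ht : ∀ i, t i ≠ 0) : AddSubgroup ℤ where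
  carrier := {k | ∃ (a : E) (m : Fin q → ℤ), a ≠ 0 ∧
    V.valuation (x ^ k) = V.valuation (algebraMap E F a * mo t m)}
  zero_mem' := ⟨1, 0, one_ne_zero, by rw [mo_zero, map_one, zpow_zero, mul_one]⟩
  add_mem' := by
    rintro k l ⟨a, m, ha, h⟩ ⟨a', m', ha', h'⟩
    refine ⟨a * a', m + m', mul_ne_zero ha ha', ?_⟩
    have e : algebraMap E F (a * a') * mo t (m + m') =
        (algebraMap E F a * mo t m) * (algebraMap E F a' * mo t m') := by
      rw [mo_add ht, (algebraMap E F).map_mul]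
      ring
    rw [zpow_add₀ hx, map_mul, h, h', e]
    exact (map_mul V.valuation _ _).symm
  neg_mem' := by
    rintro k ⟨a, m, ha, h⟩
    refine ⟨a⁻¹, -m, inv_ne_zero ha, ?_⟩
    rw [zpow_neg, map_inv₀, h, mo_neg, map_inv₀, ← mul_inv, map_inv₀]

lemma exists_e (V : ValuationSubring F) {q : ℕ} (x : F) (t : Fin q → F) (hx : x ≠ 0)
    (ht : ∀ i, t i ≠ 0)
    (h : ∃ N : ℕ, 0 < N ∧ ∃ a : E, V.valuation (x ^ N) = V.valuation (algebraMap E F a)) :
    ∃ (e : ℕ) (a : E) (m : Fin q → ℤ), 0 < e ∧ a ≠ 0 ∧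
      V.valuation (x ^ e) = V.valuation (algebraMap E F a * mo t m) ∧
      ∀ (k : ℤ) (a : E) (m : Fin q → ℤ), a ≠ 0 →
        V.valuation (x ^ k) = V.valuation (algebraMap E F a * mo t m) → (e : ℤ) ∣ k := by
  obtain ⟨N, hN, a, ha⟩ := h
  obtain ⟨c, hc⟩ := Int.subgroup_cyclic (HH (E := E) V x t hx ht)
  have ha0 : a ≠ 0 := by
    rintro rfl
    rw [map_zero, map_zero] at ha
    exact (pow_ne_zero N hx) ((map_eq_zero _).1 ha)
  have hNH : (N : ℤ) ∈ HH (E := E) V x t hx ht :=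
    ⟨a, 0, ha0, by rw [mo_zero, mul_one, zpow_natCast, ha]⟩
  have hmem : ∀ k : ℤ, k ∈ HH (E := E) V x t hx ht ↔ c ∣ k := by
    intro k
    rw [hc, AddSubgroup.mem_closure_singleton]
    constructor
    · rintro ⟨n, hn⟩
      exact ⟨n, by rw [← hn, smul_eq_mul, mul_comm]⟩
    · rintro ⟨n, hn⟩
      exact ⟨n, by rw [hn, smul_eq_mul, mul_comm]⟩
  have hc0 : c ≠ 0 := by
    rintro rfl
    have := (hmem _).1 hNH
    rw [zero_dvd_iff] at this
    omega
  have he : ((c.natAbs : ℕ) : ℤ) ∈ HH (E := E) V x t hx ht :=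
    (hmem _).2 (Int.dvd_natAbs.2 dvd_rfl)
  obtain ⟨a', m', ha', h'⟩ := he
  refine ⟨c.natAbs, a', m', Int.natAbs_pos.2 hc0, ha', by rw [← zpow_natCast, h'], ?_⟩
  intro k a m ha h
  have : k ∈ HH (E := E) V x t hx ht := ⟨a, m, ha, h⟩
  exact Int.natAbs_dvd.2 ((hmem _).1 this)

end aux

section main

variable {E F : Type u} [Field E] [Field F] [Algebra E F]

/-- the valuation is not trivial on `E` -/
lemma nontriv (V : ValuationSubring F) (θ : F) (htr : Transcendental E θ)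
    (hval : ∀ z : F, z ≠ 0 → ∃ N : ℕ, 0 < N ∧ ∃ a : E,
      V.valuation (z ^ N) = V.valuation (algebraMap E F a))
    (hres : ∀ z : F, V.valuation z = 1 → ∃ g : E[X], g.Monic ∧
      (∀ i, algebraMap E F (g.coeff i) ∈ V) ∧ V.valuation (aeval z g) < 1) :
    ∃ a : E, a ≠ 0 ∧ V.valuation (algebraMap E F a) < 1 := by
  by_contra hcon
  push Not at hcon
  have h1 : ∀ a : E, a ≠ 0 → V.valuation (algebraMap E F a) = 1 := by
    intro a ha
    refine le_antisymm ?_ (hcon a ha)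
    have h2 := hcon a⁻¹ (inv_ne_zero ha)
    rw [map_inv₀, map_inv₀] at h2
    have h3 : 0 < V.valuation (algebraMap E F a) :=
      zero_lt_iff.2 ((_root_.map_ne_zero _).2 ((_root_.map_ne_zero _).2 ha))
    exact (one_le_inv₀ h3).1 h2
  have h2 : ∀ z : F, z ≠ 0 → V.valuation z = 1 := by
    intro z hz
    obtain ⟨N, hN, a, ha⟩ := hval z hz
    have ha0 : a ≠ 0 := by
      rintro rfl
      rw [map_zero, map_zero] at ha
      exact (pow_ne_zero N hz) ((map_eq_zero _).1 ha)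
    rw [h1 a ha0, map_pow] at ha
    exact (pow_eq_one_iff_of_nonneg zero_le hN.ne').1 ha
  have hθ : θ ≠ 0 := by
    rintro rfl
    exact htr isAlgebraic_zero
  obtain ⟨g, hg, _, hg2⟩ := hres θ (h2 θ hθ)
  have h3 : aeval θ g ≠ 0 := by
    intro h
    exact hg.ne_zero (transcendental_iff.1 htr g h)
  rw [h2 _ h3] at hg2
  exact lt_irrefl _ hg2

/-- a monic polynomial in the form of `Key.om` -/
lemma om_of (V : ValuationSubring F) (ω : F) (g : E[X]) (hg : g.Monic)
    (hgV : ∀ i, algebraMap E F (g.coeff i) ∈ V) (hv : V.valuation (aeval ω g) < 1) :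
    ∃ (d : ℕ) (c : ℕ → E), (∀ i, algebraMap E F (c i) ∈ V) ∧
      V.valuation (ω ^ (d + 1) + ∑ i ∈ Finset.range (d + 1), algebraMap E F (c i) * ω ^ i) < 1 := by
  have hd : g.natDegree ≠ 0 := by
    intro h
    have h1 := hg.natDegree_eq_zero.1 h
    rw [h1, map_one, map_one] at hv
    exact lt_irrefl _ hv
  obtain ⟨d, hd⟩ := Nat.exists_eq_succ_of_ne_zero hd
  refine ⟨d, g.coeff, hgV, ?_⟩
  have h1 : aeval ω g = ω ^ (d + 1) +
      ∑ i ∈ Finset.range (d + 1), algebraMap E F (g.coeff i) * ω ^ i := by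
    conv_lhs => rw [hg.as_sum]
    rw [hd]
    simp only [map_add, map_pow, aeval_X, map_sum, map_mul, aeval_C]
  rw [← h1]
  exact hv

end main

theorem key' (h1 : S2_field.{u}) (h2 : S2_A.{u}) (h3 : S2_B.{u}) : S2_key.{u} := by
  intro E F _ _ _ V θ ϕ n β htr hK hval hres
  obtain ⟨M, iM, iA, W, π, hR⟩ := h1 V θ ϕ n β htr hK
  obtain ⟨q, r, t, ee, b, ff, hS⟩ := p_str W n (fun i => π (β i)) (orth_of V θ ϕ β hK W π hR)
  choose tt htd htπ using fun i => hR.sur (t i)
  choose bb hbd hbπ using fun j => hR.sur (b j)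
  choose zz hzd hzπ using fun p : ((i : Fin q) → Fin (ee i)) × ((j : Fin r) → Fin (ff j)) =>
    hR.sur ((∏ i, t i ^ (p.1 i : ℕ)) * ∏ j, b j ^ (p.2 j : ℕ))
  have hL : Lft V θ ϕ W π t ee b ff tt bb zz := ⟨hR, hS, htd, htπ, hbd, hbπ, hzd, hzπ⟩
  obtain ⟨A1, A2, A3, A4, A5⟩ := h2 V θ ϕ n β htr hK W π t ee b ff tt bb zz hL
  obtain ⟨B1, B2, B3, B4⟩ := h3 V θ ϕ n β htr hK W π t ee b ff tt bb zz hL
  have hϕ0 : aeval θ ϕ ≠ 0 := fun h => hK.monic.ne_zero (transcendental_iff.1 htr ϕ h)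
  have hWV : ∀ x : E, algebraMap E M x ∈ W ↔ algebraMap E F x ∈ V := by
    intro x
    have := hR.comap
    rw [← ValuationSubring.mem_comap, this, ValuationSubring.mem_comap]
  -- the relations for `t i`
  choose ga ma hga hma hrel using hS.rel
  -- the relation for `ϕ`
  obtain ⟨e, gl, ml, he, hgl, hrl, hml⟩ := exists_e (E := E) V (aeval θ ϕ)
    (fun i => aeval θ (tt i)) hϕ0 A1 (hval _ hϕ0)
  have htf0 : ∀ i, tf θ ϕ tt i ≠ 0 := by
    intro i
    refine Fin.lastCases ?_ (fun i => ?_) i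
    · rw [tf_last]; exact hϕ0
    · rw [tf_cast]; exact A1 i
  set E1 : Fin (q + 1) → ℕ := Fin.snoc (α := fun _ => ℕ) ee e with hE1
  set G1 : Fin (q + 1) → E := Fin.snoc (α := fun _ => E) ga gl with hG1
  set M1 : Fin (q + 1) → Fin (q + 1) → ℤ := Fin.snoc (α := fun _ => Fin (q + 1) → ℤ)
    (fun i => Fin.snoc (α := fun _ => ℤ) (ma i) 0) (Fin.snoc (α := fun _ => ℤ) ml 0) with hM1
  have E1c : ∀ i : Fin q, E1 i.castSucc = ee i := fun i => by rw [hE1, Fin.snoc_castSucc]
  have E1l : E1 (Fin.last q) = e := by rw [hE1, Fin.snoc_last]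
  have G1c : ∀ i : Fin q, G1 i.castSucc = ga i := fun i => by rw [hG1, Fin.snoc_castSucc]
  have G1l : G1 (Fin.last q) = gl := by rw [hG1, Fin.snoc_last]
  have mo1 : ∀ i : Fin q, mo (tf θ ϕ tt) (M1 i.castSucc) = mo (fun i => aeval θ (tt i)) (ma i) := by
    intro i
    rw [mo_snoc, hM1]
    simp only [Fin.snoc_castSucc, Fin.snoc_last, zpow_zero, mul_one]
  have mo2 : mo (tf θ ϕ tt) (M1 (Fin.last q)) = mo (fun i => aeval θ (tt i)) ml := by
    rw [mo_snoc, hM1]
    simp only [Fin.snoc_castSucc, Fin.snoc_last, zpow_zero, mul_one]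
  refine ⟨q, r, _, inferInstance, tf θ ϕ tt, E1, G1, M1, fun j => aeval θ (bb j), ff,
    zf θ tt zz, ?_, B4⟩
  constructor
  · exact nontriv V θ htr hval hres
  · exact htf0
  · intro i
    refine Fin.lastCases ?_ (fun i => ?_) i
    · rw [E1l]; exact he
    · rw [E1c]; exact hS.e0 i
  · intro i
    refine Fin.lastCases ?_ (fun i => ?_) i
    · rw [G1l]; exact hgl
    · rw [G1c]; exact hga i
  · exact A2
  · exact hS.f0
  · exact A3
  · intro i j
    refine Fin.lastCases ?_ (fun i => ?_) i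
    · intro hij
      have : j = Fin.last q := le_antisymm (Fin.le_last _) hij
      rw [this, hM1]
      simp only [Fin.snoc_last]
    · refine Fin.lastCases ?_ (fun j => ?_) j
      · intro _
        rw [hM1]
        simp only [Fin.snoc_castSucc, Fin.snoc_last]
      · intro hij
        rw [hM1]
        simp only [Fin.snoc_castSucc]
        exact hma i j (Fin.castSucc_le_castSucc_iff.1 hij)
  · intro i
    refine Fin.lastCases ?_ (fun i => ?_) i
    · rw [tf_last, E1l, G1l, mo2, hrl]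
    · rw [tf_cast, E1c, G1c, mo1]
      have := (A4 i (ee i : ℤ) (ga i) (ma i) (hga i)).1 (by rw [zpow_natCast]; exact hrel i)
      rwa [zpow_natCast] at this
  · intro i k a m ha
    refine Fin.lastCases ?_ (fun i => ?_) i
    · intro hm h
      rw [E1l]
      rw [tf_last, mo_snoc, hm _ le_rfl, zpow_zero, mul_one] at h
      exact hml k a _ ha h
    · intro hm h
      rw [E1c]
      rw [tf_cast, mo_snoc, hm _ (Fin.castSucc_lt_last i).le, zpow_zero, mul_one] at h
      have := (A4 i k a (fun i => m i.castSucc) ha).2 h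
      exact hS.min i k a _ ha (fun j hj => hm _ (Fin.castSucc_le_castSucc_iff.2 hj)) this
  · exact A5
  · intro j
    obtain ⟨h, hs, hc, hv⟩ := hS.res j
    refine ⟨h, hs, fun l m => (hWV _).1 (hc l m), ?_⟩
    exact B1 j h (fun l m => (hWV _).1 (hc l m)) hv
  · intro i
    rw [tf_cast, E1c, G1c, mo1]
    exact B2 i (ga i) (ma i) (hga i) (hrel i)
  · exact B3
  · rw [tf_last, E1l, G1l, mo2]
    have hne : algebraMap E F gl * mo (fun i => aeval θ (tt i)) ml ≠ 0 :=
      mul_ne_zero ((_root_.map_ne_zero _).2 hgl) (mo_ne_zero A1 _)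
    have hv : V.valuation (aeval θ ϕ ^ e *
        (algebraMap E F gl * mo (fun i => aeval θ (tt i)) ml)⁻¹) = 1 := by
      rw [map_mul, hrl, ← map_mul, mul_inv_cancel₀ hne, map_one]
    obtain ⟨g, hg, hgV, hg1⟩ := hres _ hv
    exact om_of V _ g hg hgV hg1
  · intro i
    refine Fin.lastCases ?_ (fun i => ?_) i
    · exact ⟨ϕ, (tf_last θ ϕ tt).symm⟩
    · exact ⟨tt i, (tf_cast θ ϕ tt i).symm⟩
  · exact fun j => ⟨bb j, rfl⟩
  · intro k
    refine ⟨Fin.snoc (α := fun _ => ℤ) (fun i => ((k.1 i : ℕ) : ℤ)) 0, zz k, ?_⟩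
    rw [mo_snoc]
    simp only [Fin.snoc_castSucc, Fin.snoc_last, zpow_zero, mul_one]
    unfold zf mo
    simp only [zpow_natCast]
    rw [mul_assoc, inv_mul_cancel₀, mul_one]
    exact Finset.prod_ne_zero_iff.2 fun i _ => pow_ne_zero _ (A1 i)

end Pool.Agent.H290.DT2
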